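import Pool.Agent.Lib_helper41.TK.Defs
import Pool.Agent.Lib_helper68.KSLF.DIA

/-! TK, block TA. -/

set_option autoImplicit false

namespace Pool.Agent.TK

open Pool.Agent.LEV Pool.Agent.LVB Pool.Agent.KSL
open Pool.Agent.LK (PQ)
open Pool.Agent.FG61 (mu phi cc ff AA Lam)
open Complex MeasureTheory Filter Topology UpperHalfPlane ModularGroup ProbabilityTheory
open scoped MatrixGroups Modular ENNReal ModularForm ComplexConjugate ContDiff

theorem ta_phi (q : ℕ) (hq : 1 ≤ q) : ∑ e ∈ q.divisors, mu e / (e : ℝ) = phi q / q := by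
  have hq0 : (0 : ℝ) < q := by exact_mod_cast hq
  have h1 := Pool.Agent.FG61.CD_gcd q q hq hq
  rw [if_pos (dvd_refl q)] at h1
  have h2 : ∑ t ∈ q.divisors, mu (q / t) * ((Nat.gcd q t : ℕ) : ℝ) =
      ∑ t ∈ q.divisors, mu (q / t) * ((q : ℝ) / ((q / t : ℕ) : ℝ)) := by
    refine Finset.sum_congr rfl fun t ht => ?_
    have ht1 := Nat.dvd_of_mem_divisors ht
    have ht0 : 0 < t := Nat.pos_of_mem_divisors ht
    rw [Nat.gcd_eq_right ht1, Nat.cast_div ht1 (by positivity)]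
    have : (t : ℝ) ≠ 0 := by positivity
    congr 1
    field_simp
  rw [h2, Nat.sum_div_divisors q (fun t => mu t * ((q : ℝ) / (t : ℝ)))] at h1
  rw [← h1, Finset.sum_div]
  refine Finset.sum_congr rfl fun t _ => ?_
  field_simp

theorem ta_ind (q n : ℕ) (hq : 1 ≤ q) :
    (if n.Coprime q then (1 : ℝ) else 0) = ∑ e ∈ q.divisors, if e ∣ n then mu e else 0 := by
  have h3 : q.divisors.filter (fun c => c ∣ n) = (Nat.gcd n q).divisors := by
    ext c
    rw [Finset.mem_filter, Nat.mem_divisors, Nat.mem_divisors, Nat.dvd_gcd_iff]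
    constructor
    · rintro ⟨⟨h4, h5⟩, h6⟩
      exact ⟨⟨h6, h4⟩, fun h => h5 (Nat.eq_zero_of_gcd_eq_zero_right h)⟩
    · rintro ⟨⟨h4, h6⟩, h5⟩
      exact ⟨⟨h6, by omega⟩, h4⟩
  rw [← Finset.sum_filter, h3]
  have h4 := DIA_mu (Nat.gcd n q)
  rw [Nat.sum_div_divisors (Nat.gcd n q) (fun s => mu s)] at h4
  rw [h4]

theorem ta_count (X q m : ℕ) (hq : 1 ≤ q) (hm : 1 ≤ m) (hmq : m.Coprime q) :
    |(((Finset.Icc 1 X).filter (fun n => n.Coprime q)).filter (fun n => m ∣ n)).card -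
      (X : ℝ) * (phi q / q) / m| ≤ q.divisors.card := by
  have h1 : ((((Finset.Icc 1 X).filter (fun n => n.Coprime q)).filter (fun n => m ∣ n)).card : ℝ) =
      ∑ e ∈ q.divisors, mu e * ((X / (e * m) : ℕ) : ℝ) := by
    rw [Finset.filter_comm, Finset.card_filter]
    push_cast
    rw [Finset.sum_congr rfl (fun n _ => ta_ind q n hq), Finset.sum_comm]
    refine Finset.sum_congr rfl fun e he => ?_
    rw [← Finset.sum_filter, Finset.sum_const, nsmul_eq_mul, Finset.filter_filter, mul_comm]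
    congr 2
    have hem : Nat.Coprime e m := (hmq.coprime_dvd_right (Nat.dvd_of_mem_divisors he)).symm
    rw [← Pool.Agent.FG61.CD_count X (e * m)]
    congr 1
    ext n
    simp only [Finset.mem_filter]
    constructor
    · rintro ⟨h2, h3, h4⟩
      exact ⟨h2, hem.mul_dvd_of_dvd_of_dvd h4 h3⟩
    · rintro ⟨h2, h3⟩
      exact ⟨h2, (dvd_mul_left m e).trans h3, (dvd_mul_right e m).trans h3⟩
  have h2 : (X : ℝ) * (phi q / q) / m = ∑ e ∈ q.divisors, mu e * ((X : ℝ) / (e * m)) := by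
    rw [← ta_phi q hq, Finset.mul_sum, Finset.sum_div]
    refine Finset.sum_congr rfl fun e he => ?_
    have he0 : (e : ℝ) ≠ 0 := by exact_mod_cast (Nat.pos_of_mem_divisors he).ne'
    have hm0 : (m : ℝ) ≠ 0 := by positivity
    field_simp
  rw [h1, h2, ← Finset.sum_sub_distrib]
  refine (Finset.abs_sum_le_sum_abs _ _).trans ?_
  calc ∑ e ∈ q.divisors, |mu e * ((X / (e * m) : ℕ) : ℝ) - mu e * ((X : ℝ) / (e * m))|
      ≤ ∑ e ∈ q.divisors, (1 : ℝ) := by
        refine Finset.sum_le_sum fun e he => ?_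
        rw [← mul_sub, abs_mul]
        have h7 : |mu e| ≤ 1 := by
          have := ArithmeticFunction.abs_moebius_le_one (n := e)
          unfold mu
          exact_mod_cast this
        have hpos : 0 < e * m := Nat.mul_pos (Nat.pos_of_mem_divisors he) (by omega)
        have h8 : |((X / (e * m) : ℕ) : ℝ) - (X : ℝ) / (e * m)| ≤ 1 := by
          have h9 : ((X / (e * m) : ℕ) : ℝ) ≤ (X : ℝ) / ((e * m : ℕ) : ℝ) := Nat.cast_div_le
          have h10 : (X : ℝ) / ((e * m : ℕ) : ℝ) < ((X / (e * m) : ℕ) : ℝ) + 1 := by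
            have h4 : (0 : ℝ) < ((e * m : ℕ) : ℝ) := by exact_mod_cast hpos
            rw [div_lt_iff₀ h4]
            have := Nat.lt_mul_div_succ X hpos
            have h11 : (X : ℝ) < ((e * m : ℕ) : ℝ) * ((X / (e * m) : ℕ) + 1) := by
              exact_mod_cast this
            linarith
          push_cast at h9 h10
          rw [abs_le]
          constructor <;> linarith
        calc |mu e| * |((X / (e * m) : ℕ) : ℝ) - (X : ℝ) / (e * m)| ≤ 1 * 1 :=
              mul_le_mul h7 h8 (abs_nonneg _) zero_le_one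
          _ = 1 := one_mul 1
    _ = q.divisors.card := by rw [Finset.sum_const, nsmul_eq_mul, mul_one]

theorem ta_corr (X q d e : ℕ) (hq : 1 ≤ q) (hd : 1 ≤ d) (he : 1 ≤ e) (hdq : d.Coprime q)
    (heq : e.Coprime q) :
    |∑ n ∈ (Finset.Icc 1 X).filter (fun n => n.Coprime q), cc d n * cc e n -
      (if d = e then (X : ℝ) * (phi q / q) * phi e else 0)| ≤
      q.divisors.card * ((∑ t ∈ d.divisors, (t : ℝ)) * ∑ t ∈ e.divisors, (t : ℝ)) := by
  set S := (Finset.Icc 1 X).filter (fun n => n.Coprime q) with hS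
  set Y : ℝ := (X : ℝ) * (phi q / q) with hY
  have h1 : ∑ n ∈ S, cc d n * cc e n = ∑ t ∈ d.divisors, ∑ s ∈ e.divisors,
      ((t : ℝ) * mu (d / t)) * ((s : ℝ) * mu (e / s)) *
        ((S.filter (fun n => Nat.lcm t s ∣ n)).card : ℝ) := by
    have h2 : ∀ n ∈ S, cc d n * cc e n = ∑ t ∈ d.divisors, ∑ s ∈ e.divisors,
        (if Nat.lcm t s ∣ n then ((t : ℝ) * mu (d / t)) * ((s : ℝ) * mu (e / s)) else 0) := by
      intro n _
      rw [Pool.Agent.FG61.CD_cc d n hd, Pool.Agent.FG61.CD_cc e n he, Finset.sum_mul_sum]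
      refine Finset.sum_congr rfl fun t _ => Finset.sum_congr rfl fun s _ => ?_
      by_cases h3 : t ∣ n <;> by_cases h4 : s ∣ n
      · rw [if_pos h3, if_pos h4, if_pos (Nat.lcm_dvd h3 h4)]
      · rw [if_neg h4, mul_zero, if_neg (fun h => h4 ((Nat.dvd_lcm_right t s).trans h))]
      · rw [if_neg h3, zero_mul, if_neg (fun h => h3 ((Nat.dvd_lcm_left t s).trans h))]
      · rw [if_neg h3, zero_mul, if_neg (fun h => h3 ((Nat.dvd_lcm_left t s).trans h))]
    rw [Finset.sum_congr rfl h2, Finset.sum_comm]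
    refine Finset.sum_congr rfl fun t _ => ?_
    rw [Finset.sum_comm]
    refine Finset.sum_congr rfl fun s _ => ?_
    rw [← Finset.sum_filter, Finset.sum_const, nsmul_eq_mul, mul_comm]
  have h5 : (if d = e then Y * phi e else 0) = ∑ t ∈ d.divisors, ∑ s ∈ e.divisors,
      ((t : ℝ) * mu (d / t)) * ((s : ℝ) * mu (e / s)) * (Y / ((Nat.lcm t s : ℕ) : ℝ)) := by
    have h6 : ∀ t ∈ d.divisors, ∑ s ∈ e.divisors,
        ((t : ℝ) * mu (d / t)) * ((s : ℝ) * mu (e / s)) * (Y / ((Nat.lcm t s : ℕ) : ℝ)) =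
        Y * phi e * (if e ∣ t then mu (d / t) else 0) := by
      intro t ht
      have ht0 : 0 < t := Nat.pos_of_mem_divisors ht
      have h7 := Pool.Agent.FG61.CD_gcd t e ht0 he
      have h8 : ∑ s ∈ e.divisors,
          ((t : ℝ) * mu (d / t)) * ((s : ℝ) * mu (e / s)) * (Y / ((Nat.lcm t s : ℕ) : ℝ)) =
          Y * mu (d / t) * ∑ s ∈ e.divisors, mu (e / s) * ((Nat.gcd t s : ℕ) : ℝ) := by
        rw [Finset.mul_sum]
        refine Finset.sum_congr rfl fun s hs => ?_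
        have hs0 : 0 < s := Nat.pos_of_mem_divisors hs
        have h3 : (Nat.gcd t s : ℝ) * (Nat.lcm t s : ℝ) = (t : ℝ) * s := by
          exact_mod_cast Nat.gcd_mul_lcm t s
        have h4 : (0 : ℝ) < (Nat.lcm t s : ℝ) := by
          exact_mod_cast Nat.lcm_pos ht0 hs0
        have h9 : (Nat.gcd t s : ℝ) = (t : ℝ) * s / (Nat.lcm t s : ℝ) := by
          rw [eq_div_iff h4.ne', h3]
        rw [h9]
        field_simp
      rw [h8, h7]
      split_ifs <;> ring
    rw [Finset.sum_congr rfl h6, ← Finset.mul_sum, DIA_main d e hd he]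
    split_ifs <;> ring
  rw [h1, h5, ← Finset.sum_sub_distrib]
  have h10 : (q.divisors.card : ℝ) * ((∑ t ∈ d.divisors, (t : ℝ)) * ∑ t ∈ e.divisors, (t : ℝ)) =
      ∑ t ∈ d.divisors, ∑ s ∈ e.divisors, (q.divisors.card : ℝ) * ((t : ℝ) * s) := by
    rw [Finset.sum_mul_sum, Finset.mul_sum]
    refine Finset.sum_congr rfl fun t _ => ?_
    rw [Finset.mul_sum]
  rw [h10]
  refine (Finset.abs_sum_le_sum_abs _ _).trans (Finset.sum_le_sum fun t ht => ?_)
  rw [← Finset.sum_sub_distrib]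
  refine (Finset.abs_sum_le_sum_abs _ _).trans (Finset.sum_le_sum fun s hs => ?_)
  have ht0 : 0 < t := Nat.pos_of_mem_divisors ht
  have hs0 : 0 < s := Nat.pos_of_mem_divisors hs
  have hcop : (Nat.lcm t s).Coprime q := by
    have h11 : t.Coprime q := hdq.coprime_dvd_left (Nat.dvd_of_mem_divisors ht)
    have h12 : s.Coprime q := heq.coprime_dvd_left (Nat.dvd_of_mem_divisors hs)
    exact (Nat.Coprime.mul_left h11 h12).coprime_dvd_left (Nat.lcm_dvd_mul t s)
  have h13 := ta_count X q (Nat.lcm t s) hq (Nat.lcm_pos ht0 hs0) hcop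
  rw [← hS, ← hY] at h13
  rw [← mul_sub, abs_mul, abs_mul, abs_mul, abs_mul]
  have h7 : ∀ k : ℕ, |mu k| ≤ 1 := by
    intro k
    have := ArithmeticFunction.abs_moebius_le_one (n := k)
    unfold mu
    exact_mod_cast this
  have h14 : |(t : ℝ)| = t := abs_of_nonneg (Nat.cast_nonneg t)
  have h15 : |(s : ℝ)| = s := abs_of_nonneg (Nat.cast_nonneg s)
  rw [h14, h15]
  have h16 : (t : ℝ) * |mu (d / t)| ≤ t := by
    calc (t : ℝ) * |mu (d / t)| ≤ t * 1 := mul_le_mul_of_nonneg_left (h7 _) (Nat.cast_nonneg t)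
      _ = t := mul_one _
  have h17 : (s : ℝ) * |mu (e / s)| ≤ s := by
    calc (s : ℝ) * |mu (e / s)| ≤ s * 1 := mul_le_mul_of_nonneg_left (h7 _) (Nat.cast_nonneg s)
      _ = s := mul_one _
  calc (t : ℝ) * |mu (d / t)| * (s * |mu (e / s)|) *
        |((S.filter (fun n => Nat.lcm t s ∣ n)).card : ℝ) - Y / ((Nat.lcm t s : ℕ) : ℝ)|
      ≤ (t * s) * q.divisors.card :=
        mul_le_mul (mul_le_mul h16 h17 (by positivity) (by positivity)) h13 (abs_nonneg _)
          (by positivity)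
    _ = _ := by ring

/-- two combinations of Ramanujan sums -/
theorem ta_two (X q : ℕ) (hq : 1 ≤ q) (A B : Finset ℕ) (hA : ∀ d ∈ A, 1 ≤ d) (hB : ∀ d ∈ B, 1 ≤ d)
    (hBA : B ⊆ A) (w : ℕ → ℝ) (hw : ∀ d, w d ≠ 0 → d.Coprime q) :
    |∑ n ∈ (Finset.Icc 1 X).filter (fun n => n.Coprime q),
        (∑ d ∈ A, w d * cc d n) * (∑ r ∈ B, w r * cc r n) -
      X * (phi q / q) * ∑ r ∈ B, phi r * w r ^ 2| ≤
      q.divisors.card * ((∑ d ∈ A, |w d| * ∑ t ∈ d.divisors, (t : ℝ)) *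
        ∑ r ∈ B, |w r| * ∑ t ∈ r.divisors, (t : ℝ)) := by
  set S := (Finset.Icc 1 X).filter (fun n => n.Coprime q) with hS
  set Y : ℝ := (X : ℝ) * (phi q / q) with hY
  have h1 : ∑ n ∈ S, (∑ d ∈ A, w d * cc d n) * (∑ r ∈ B, w r * cc r n) =
      ∑ r ∈ B, ∑ d ∈ A, w d * w r * ∑ n ∈ S, cc d n * cc r n := by
    have h2 : ∀ n ∈ S, (∑ d ∈ A, w d * cc d n) * (∑ r ∈ B, w r * cc r n) =
        ∑ r ∈ B, ∑ d ∈ A, w d * w r * (cc d n * cc r n) := by
      intro n _
      rw [Finset.sum_mul_sum, Finset.sum_comm]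
      refine Finset.sum_congr rfl fun r _ => Finset.sum_congr rfl fun d _ => ?_
      ring
    rw [Finset.sum_congr rfl h2, Finset.sum_comm]
    refine Finset.sum_congr rfl fun r _ => ?_
    rw [Finset.sum_comm]
    refine Finset.sum_congr rfl fun d _ => ?_
    rw [Finset.mul_sum]
  have h3 : Y * ∑ r ∈ B, phi r * w r ^ 2 =
      ∑ r ∈ B, ∑ d ∈ A, w d * w r * (if d = r then Y * phi r else 0) := by
    rw [Finset.mul_sum]
    refine Finset.sum_congr rfl fun r hr => ?_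
    have h4 : ∀ d ∈ A, w d * w r * (if d = r then Y * phi r else 0) =
        if d = r then w r * w r * (Y * phi r) else 0 := by
      intro d _
      by_cases h : d = r
      · subst h; simp
      · simp [h]
    rw [Finset.sum_congr rfl h4, Finset.sum_ite_eq' A r (fun _ => w r * w r * (Y * phi r)),
      if_pos (hBA hr)]
    ring
  rw [h1, h3, ← Finset.sum_sub_distrib]
  have h5 : (q.divisors.card : ℝ) * ((∑ d ∈ A, |w d| * ∑ t ∈ d.divisors, (t : ℝ)) *
        ∑ r ∈ B, |w r| * ∑ t ∈ r.divisors, (t : ℝ)) =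
      ∑ r ∈ B, ∑ d ∈ A, |w d| * |w r| * (q.divisors.card *
        ((∑ t ∈ d.divisors, (t : ℝ)) * ∑ t ∈ r.divisors, (t : ℝ))) := by
    rw [Finset.sum_mul_sum, Finset.sum_comm, Finset.mul_sum]
    refine Finset.sum_congr rfl fun r _ => ?_
    rw [Finset.mul_sum]
    refine Finset.sum_congr rfl fun d _ => ?_
    ring
  rw [h5]
  refine (Finset.abs_sum_le_sum_abs _ _).trans (Finset.sum_le_sum fun r hr => ?_)
  rw [← Finset.sum_sub_distrib]
  refine (Finset.abs_sum_le_sum_abs _ _).trans (Finset.sum_le_sum fun d hd => ?_)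
  rw [← mul_sub, abs_mul, abs_mul]
  by_cases hd0 : w d = 0
  · rw [hd0, abs_zero, zero_mul, zero_mul, zero_mul]
  · by_cases hr0 : w r = 0
    · rw [hr0, abs_zero, mul_zero, zero_mul, zero_mul]
    · exact mul_le_mul_of_nonneg_left
        (ta_corr X q d r hq (hA d hd) (hB r hr) (hw d hd0) (hw r hr0)) (by positivity)

theorem tt_diagC {q : ℕ} (hq : 1 ≤ q) (Q : ℕ) (w : ℕ → ℝ) (hw : ∀ d, w d ≠ 0 → d.Coprime q)
    (D : ℝ) (hD : ⌊D⌋₊ ≤ Q) (X : ℕ) :
    |∑ n ∈ (Finset.Icc 1 X).filter (fun n => n.Coprime q), TT Q w D n ^ 2 -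
        ∑ n ∈ (Finset.Icc 1 X).filter (fun n => n.Coprime q), WW Q w n ^ 2 +
        X * (phi q / q * GD w D)| ≤
      3 * q.divisors.card * (∑ d ∈ Finset.Icc 1 Q, |w d| * ∑ e ∈ d.divisors, (e : ℝ)) *
        ∑ d ∈ Finset.Icc 1 ⌊D⌋₊, |w d| * ∑ e ∈ d.divisors, (e : ℝ) := by
  set P : ℕ → ℝ := fun n => ∑ d ∈ Finset.Icc 1 ⌊D⌋₊, w d * cc d n with hP
  set S := (Finset.Icc 1 X).filter (fun n => n.Coprime q) with hS
  have hsub : Finset.Icc 1 ⌊D⌋₊ ⊆ Finset.Icc 1 Q := Finset.Icc_subset_Icc_right hD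
  have hTT : ∀ n, TT Q w D n = WW Q w n - P n := by
    intro n
    have h1 : (Finset.Icc 1 Q).filter (fun q : ℕ => ¬ (D < q)) = Finset.Icc 1 ⌊D⌋₊ := by
      ext d
      simp only [Finset.mem_filter, Finset.mem_Icc, not_lt]
      constructor
      · rintro ⟨⟨h2, _⟩, h4⟩
        exact ⟨h2, Nat.le_floor h4⟩
      · rintro ⟨h2, h3⟩
        refine ⟨⟨h2, h3.trans hD⟩, ?_⟩
        exact (Nat.le_floor_iff' (by omega)).mp h3
    have h2 := Finset.sum_filter_add_sum_filter_not (Finset.Icc 1 Q) (fun q : ℕ => D < q)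
      (fun q => w q * cc q n)
    rw [h1] at h2
    unfold TT WW
    rw [hP]
    linarith
  have hA : ∀ d ∈ Finset.Icc 1 Q, 1 ≤ d := fun d hd => (Finset.mem_Icc.mp hd).1
  have hB : ∀ d ∈ Finset.Icc 1 ⌊D⌋₊, 1 ≤ d := fun d hd => (Finset.mem_Icc.mp hd).1
  have e1 := ta_two X q hq _ _ hA hB hsub w hw
  have e2 := ta_two X q hq _ _ hB hB (Finset.Subset.refl _) w hw
  have h3 : ∑ n ∈ S, TT Q w D n ^ 2 - ∑ n ∈ S, WW Q w n ^ 2 + X * (phi q / q * GD w D) =
      -2 * (∑ n ∈ S, WW Q w n * P n - X * (phi q / q) * GD w D) +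
        (∑ n ∈ S, P n * P n - X * (phi q / q) * GD w D) := by
    have h4 : ∑ n ∈ S, TT Q w D n ^ 2 = ∑ n ∈ S, WW Q w n ^ 2 -
        2 * ∑ n ∈ S, WW Q w n * P n + ∑ n ∈ S, P n * P n := by
      rw [Finset.mul_sum, ← Finset.sum_sub_distrib, ← Finset.sum_add_distrib]
      refine Finset.sum_congr rfl fun n _ => ?_
      rw [hTT]
      ring
    rw [h4]
    ring
  set SA := ∑ d ∈ Finset.Icc 1 Q, |w d| * ∑ e ∈ d.divisors, (e : ℝ) with hSA
  set SB := ∑ d ∈ Finset.Icc 1 ⌊D⌋₊, |w d| * ∑ e ∈ d.divisors, (e : ℝ) with hSB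
  have hSB0 : 0 ≤ SB := Finset.sum_nonneg fun d _ => by positivity
  have hSBA : SB ≤ SA := Finset.sum_le_sum_of_subset_of_nonneg hsub (fun d _ _ => by positivity)
  have h5 : |∑ n ∈ S, WW Q w n * P n - X * (phi q / q) * GD w D| ≤
      q.divisors.card * (SA * SB) := e1
  have h6 : |∑ n ∈ S, P n * P n - X * (phi q / q) * GD w D| ≤ q.divisors.card * (SB * SB) := e2
  rw [h3]
  have h7 := abs_le.mp h5
  have h8 := abs_le.mp h6
  have h9 : (q.divisors.card : ℝ) * (SB * SB) ≤ q.divisors.card * (SA * SB) :=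
    mul_le_mul_of_nonneg_left (mul_le_mul_of_nonneg_right hSBA hSB0) (Nat.cast_nonneg _)
  have h10 : 3 * (q.divisors.card : ℝ) * SA * SB = 3 * (q.divisors.card * (SA * SB)) := by ring
  rw [h10, abs_le]
  constructor <;> linarith [h7.1, h7.2, h8.1, h8.2]

end Pool.Agent.TK
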